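import Pool.Agent.helper96.LK.SpecM

/-!
Project lk (MP_940ffa_an), module BAS: the values at `e = 0` and `e = 1`.
-/

open PowerSeries Filter

noncomputable section

namespace Pool.Agent.LK

open Pool.Agent.helper59.LC Pool.Agent.helper59.LD

lemma BAS_two : (2 : ℂ⟦X⟧) = C (2 : ℂ) := (map_ofNat (C : ℂ →+* ℂ⟦X⟧) 2).symm

lemma BAS_three : (3 : ℂ⟦X⟧) = C (3 : ℂ) := (map_ofNat (C : ℂ →+* ℂ⟦X⟧) 3).symm

lemma BAS_d2 : derivative ℂ (2 : ℂ⟦X⟧) = 0 := by rw [BAS_two]; exact derivative_C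

lemma BAS_d3 : derivative ℂ (3 : ℂ⟦X⟧) = 0 := by rw [BAS_three]; exact derivative_C

lemma BAS_c1 (W : ℂ⟦X⟧) : coeff 1 (X * W) = constantCoeff W := by
  rw [mul_comm]
  have := coeff_succ_mul_X 0 W
  rw [coeff_zero_eq_constantCoeff_apply] at this
  exact this

/-- A series `U` with `X U' = Z U`, `Z = 1 + ...`, vanishing up to order one, is zero. -/
lemma BAS_zero {U Z : ℂ⟦X⟧} (h : X * derivative ℂ U = Z * U) (hZ : coeff 0 Z = 1)
    (h1 : coeff 1 U = 0) : U = 0 := by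
  have key : ∀ n, coeff n U = 0 := by
    intro n
    induction n using Nat.strong_induction_on with
    | _ n ih =>
      have h2 := congrArg (coeff n) h
      have h3 : coeff n (Z * U) = coeff n U := by
        rw [coeff_mul, Finset.sum_eq_single (0, n)]
        · rw [hZ, one_mul]
        · rintro ⟨i, j⟩ hij hne
          rw [Finset.HasAntidiagonal.mem_antidiagonal] at hij
          have : j < n := by
            rcases Nat.lt_or_ge j n with h | h
            · exact h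
            · exfalso
              apply hne
              simp only at hij
              ext <;> simp <;> omega
          rw [ih j this, mul_zero]
        · intro h
          exact absurd (Finset.HasAntidiagonal.mem_antidiagonal.2 (by simp)) h
      rw [h3] at h2
      rcases n with _ | n
      · rw [← h2]; simp
      · rw [mul_comm, coeff_succ_mul_X, coeff_derivative] at h2
        rcases n with _ | n
        · exact h1
        · have h4 : coeff (n + 1 + 1) U * ((n : ℂ) + 1) = 0 := by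
            push_cast at h2
            linear_combination h2
          rcases mul_eq_zero.1 h4 with h5 | h5
          · exact h5
          · exfalso
            have : ((n + 1 : ℕ) : ℂ) ≠ 0 := Nat.cast_ne_zero.2 (Nat.succ_ne_zero n)
            push_cast at this
            exact this h5
  ext n
  rw [key n, map_zero]

section gen
variable {A : Type} [CommRing A] [Algebra ℚ A]

lemma BAS_inv {m : ℕ} {e : A} (r : Rt m e) (k : ℤ) : r.z k * r.z (-k) = 1 := by
  rw [← r.add, add_neg_cancel, r.zero]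

/-- the logarithmic derivative -/
def BAS_d {m : ℕ} {e : A} (r : Rt m e) : ℤ →+ A⟦X⟧ :=
  AddMonoidHom.mk' (fun k => X * derivative A (r.z k) * r.z (-k)) (by
    intro k l
    have h1 := BAS_inv r k
    have h2 := BAS_inv r l
    rw [r.add k l, neg_add, r.add (-k) (-l), Derivation.leibniz]
    simp only [smul_eq_mul]
    linear_combination (X * derivative A (r.z l) * r.z (-l)) * h1 +
      (X * derivative A (r.z k) * r.z (-k)) * h2)

lemma BAS_d_apply {m : ℕ} {e : A} (r : Rt m e) (k : ℤ) :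
    BAS_d r k = X * derivative A (r.z k) * r.z (-k) := rfl

lemma BAS_log {m : ℕ} {e : A} (r : Rt m e) {γ : A⟦X⟧}
    (hγ : X * derivative A (psi (gq e)) = (1 + psi (gq e)) * γ) (k : ℤ) :
    (m : A⟦X⟧) * (X * derivative A (r.z k)) = (k : A⟦X⟧) * (γ * r.z k) := by
  have h1 : BAS_d r (m : ℤ) = γ := by
    rw [BAS_d_apply]
    have h2 := BAS_inv r (m : ℤ)
    have h3 : derivative A (r.z (m : ℤ)) = derivative A (psi (gq e)) := by
      rw [r.top, map_add, Derivation.map_one_eq_zero, zero_add]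
    rw [h3, hγ, ← r.top]
    linear_combination γ * h2
  have h2 : BAS_d r (k • (m : ℤ)) = k • γ := by rw [map_zsmul, h1]
  have h3 : BAS_d r ((m : ℤ) • k) = (m : ℤ) • BAS_d r k := map_zsmul _ _ _
  have h4 : k • (m : ℤ) = (m : ℤ) • k := by simp [mul_comm]
  rw [h4, h3, BAS_d_apply, zsmul_eq_mul, zsmul_eq_mul] at h2
  have h5 := BAS_inv r k
  push_cast at h2
  linear_combination (r.z k) * h2 - (m : A⟦X⟧) * (X * derivative A (r.z k)) * h5

lemma BAS_rec {ψ ρ : A⟦X⟧} (h : derivative A ψ * ρ = 1) {β : A⟦X⟧}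
    (hβ : X * derivative A (derivative A ψ) = β * derivative A ψ) :
    X * derivative A ρ = - (β * ρ) := by
  have h1 := congrArg (derivative A) h
  rw [Derivation.leibniz, Derivation.map_one_eq_zero] at h1
  simp only [smul_eq_mul] at h1
  linear_combination (ρ * X) * h1 - (X * derivative A ρ) * h - ρ ^ 2 * hβ - (β * ρ) * h

lemma BAS_bs {m : ℕ} {e : A} (r : Rt m e) {γ : A⟦X⟧} (c : ℕ)
    (hγ : X * derivative A (psi (gq e)) = (1 + psi (gq e)) * γ)
    (hc : X * derivative A (derivative A (psi (gq e))) =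
      ((c : A⟦X⟧) * γ) * derivative A (psi (gq e))) (k : ℤ) :
    (m : A⟦X⟧) * (X * derivative A (bs r k)) =
      ((k : A⟦X⟧) + (m : A⟦X⟧) - (c : A⟦X⟧) * (m : A⟦X⟧)) * (γ * bs r k) := by
  have h1 := BAS_log r hγ (k + m)
  have h2 := BAS_rec (isPsi_psi (gq e)).mul_rec hc
  rw [bs, Derivation.leibniz]
  simp only [smul_eq_mul]
  push_cast at h1
  linear_combination (rec' (psi (gq e))) * h1 + ((m : A⟦X⟧) * r.z (k + m)) * h2

lemma BAS_c0 {m : ℕ} {e : A} (r : Rt m e) (k : ℤ) : coeff 0 (bs r k) = 1 := by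
  have h := r.c0 (k + m)
  rw [coeff_zero_eq_constantCoeff_apply] at h ⊢
  rw [bs, map_mul, h, rec', one_mul, constantCoeff_invOfUnit]
  simp

end gen

lemma BAS_rcr {m : ℕ} (hm : 1 ≤ m) {e : ℂ} (r : Rt m e) {γ : ℂ⟦X⟧} (c a : ℕ)
    (hγ : X * derivative ℂ (psi (gq e)) = (1 + psi (gq e)) * γ)
    (hc : X * derivative ℂ (derivative ℂ (psi (gq e))) =
      ((c : ℂ⟦X⟧) * γ) * derivative ℂ (psi (gq e)))
    (ha : γ * (1 - (a : ℂ⟦X⟧) * X) = X) (k : ℤ) (j : ℕ) :
    (m : ℂ) * ((j + 1) * coeff (j + 1) (bs r k)) =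
      ((k : ℂ) + m - c * m + a * m * j) * coeff j (bs r k) := by
  have h1 := BAS_bs r c hγ hc k
  have h2 : X * ((m : ℂ⟦X⟧) * (derivative ℂ (bs r k) - (a : ℂ⟦X⟧) *
      (X * derivative ℂ (bs r k)))) =
      X * (((k : ℂ⟦X⟧) + (m : ℂ⟦X⟧) - (c : ℂ⟦X⟧) * (m : ℂ⟦X⟧)) * bs r k) := by
    linear_combination (1 - (a : ℂ⟦X⟧) * X) * h1 +
      (((k : ℂ⟦X⟧) + (m : ℂ⟦X⟧) - (c : ℂ⟦X⟧) * (m : ℂ⟦X⟧)) * bs r k) * ha
  have h3 := mul_left_cancel₀ X_ne_zero h2
  have h4 := congrArg (coeff j) h3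
  have e1 : (m : ℂ⟦X⟧) = C (m : ℂ) := by simp
  have e2 : ((k : ℂ⟦X⟧) + (m : ℂ⟦X⟧) - (c : ℂ⟦X⟧) * (m : ℂ⟦X⟧)) =
      C ((k : ℂ) + m - c * m) := by simp
  have e3 : (a : ℂ⟦X⟧) = C (a : ℂ) := by simp
  rw [e2, e1, e3, coeff_C_mul, coeff_C_mul, map_sub, coeff_C_mul, coeff_derivative] at h4
  have e4 : coeff j (X * derivative ℂ (bs r k)) = (j : ℂ) * coeff j (bs r k) := by
    rcases j with _ | j
    · simp
    · rw [mul_comm, coeff_succ_mul_X, coeff_derivative]
      push_cast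
      ring
  rw [e4] at h4
  linear_combination h4

lemma BAS_form {m : ℕ} (hm : 1 ≤ m) (b : ℕ → ℂ) (k : ℤ) (c a : ℕ) (y : ℚ) (h0 : b 0 = 1)
    (h : ∀ j : ℕ, (m : ℂ) * ((j + 1) * b (j + 1)) = ((k : ℂ) + m - c * m + a * m * j) * b j)
    (hy : (m : ℚ) * ((a : ℚ) * y) = -(k : ℚ) - m + c * m) (j : ℕ) :
    b j = (((-(a : ℚ)) ^ j * ch y j : ℚ) : ℂ) := by
  have hmC : (m : ℂ) ≠ 0 := Nat.cast_ne_zero.2 (by omega)
  have hyC : (m : ℂ) * ((a : ℂ) * (y : ℂ)) = -(k : ℂ) - m + c * m := by exact_mod_cast congrArg (fun q : ℚ => (q : ℂ)) hy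
  induction j with
  | zero => rw [h0]; simp [ch_zero]
  | succ j ih =>
    have h1 := h j
    have h2 := ch_succ y j
    have h2C : (ch y (j + 1) : ℂ) * ((j : ℂ) + 1) = (ch y j : ℂ) * ((y : ℂ) - j) := by
      exact_mod_cast congrArg (fun q : ℚ => (q : ℂ)) h2
    have hj : ((j : ℂ) + 1) ≠ 0 := by
      have : ((j + 1 : ℕ) : ℂ) ≠ 0 := Nat.cast_ne_zero.2 (Nat.succ_ne_zero j)
      push_cast at this
      exact this
    rw [ih] at h1
    push_cast at h1 ⊢
    apply mul_left_cancel₀ (mul_ne_zero hmC hj)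
    have e1 : (-(a : ℂ)) ^ (j + 1) = -(a : ℂ) * (-(a : ℂ)) ^ j := by rw [pow_succ]; ring
    rw [e1]
    linear_combination h1 + (m : ℂ) * (a : ℂ) * (-(a : ℂ)) ^ j * h2C +
      ((-(a : ℂ)) ^ j * (ch y j : ℂ)) * hyC

/-! ### the case `e = 0` -/

lemma BAS_psi0 : 2 * (X * derivative ℂ (psi (gq (0 : ℂ)))) =
    2 * psi (gq (0 : ℂ)) + 3 * psi (gq (0 : ℂ)) ^ 2 + psi (gq (0 : ℂ)) ^ 3 := by
  have h := (isPsi_psi (gq (0 : ℂ))).2.2
  rw [aeval_FF] at h
  rw [h]
  have h1 : Polynomial.aeval (psi (gq (0 : ℂ))) (gq (0 : ℂ)) =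
      C (3 / 2 : ℂ) + C (1 / 2 : ℂ) * psi (gq (0 : ℂ)) := by
    generalize psi (gq (0 : ℂ)) = ψ
    simp [gq, qc, PowerSeries.algebraMap_apply]
  have h2 : (2 : ℂ⟦X⟧) * C (3 / 2 : ℂ) = 3 := by
    rw [BAS_two, ← map_mul, BAS_three]
    norm_num
  have h3 : (2 : ℂ⟦X⟧) * C (1 / 2 : ℂ) = 1 := by
    rw [BAS_two, ← map_mul]
    norm_num
  rw [h1]
  linear_combination (psi (gq (0 : ℂ))) ^ 2 * h2 + (psi (gq (0 : ℂ))) ^ 3 * h3

lemma BAS_psi1 : X * derivative ℂ (psi (gq (1 : ℂ))) =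
    psi (gq (1 : ℂ)) + psi (gq (1 : ℂ)) ^ 2 := by
  have h := (isPsi_psi (gq (1 : ℂ))).2.2
  rw [aeval_FF] at h
  rw [h]
  have h1 : Polynomial.aeval (psi (gq (1 : ℂ))) (gq (1 : ℂ)) = 1 := by
    generalize psi (gq (1 : ℂ)) = ψ
    have e1 : gq (1 : ℂ) = 1 := by
      rw [gq]
      have h2 : qc ℂ (3 / 2) - qc ℂ (1 / 2) * 1 = 1 := by
        simp [qc]; norm_num
      have h3 : qc ℂ (1 / 2) - qc ℂ (1 / 2) * 1 = 0 := by ring
      rw [h2, h3]
      simp
    rw [e1, map_one]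
  rw [h1, mul_one]

lemma BAS_half {x y : ℂ⟦X⟧} (h : 2 * x = 2 * y) : x = y := by
  have h2 : (2 : ℂ⟦X⟧) ≠ 0 := by
    intro h0
    have h1 := congrArg (coeff 0) h0
    rw [BAS_two, coeff_zero_C, map_zero] at h1
    norm_num at h1
  exact mul_left_cancel₀ h2 h

/-- the case `e = 0` -/
lemma BAS_case0 (m : ℕ) (hm : 1 ≤ m) (r : Rt m (0 : ℂ)) (k : ℤ) (j : ℕ) :
    coeff j (bs r k) = (((-2) ^ j * ch (1 - (k : ℚ) / (2 * m)) j : ℚ) : ℂ) := by
  have h0 := BAS_psi0
  have hpsi := isPsi_psi (gq (0 : ℂ))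
  set ψ := psi (gq (0 : ℂ)) with hψ
  set γ : ℂ⟦X⟧ := ψ + C (1 / 2 : ℂ) * ψ ^ 2 with hγd
  have h3 : (2 : ℂ⟦X⟧) * C (1 / 2 : ℂ) = 1 := by
    rw [BAS_two, ← map_mul]
    norm_num
  have hg2 : 2 * γ = 2 * ψ + ψ ^ 2 := by
    rw [hγd]
    linear_combination ψ ^ 2 * h3
  have hγ : X * derivative ℂ ψ = (1 + ψ) * γ := by
    apply BAS_half
    linear_combination h0 - (1 + ψ) * hg2
  have hc : X * derivative ℂ (derivative ℂ ψ) = (((3 : ℕ) : ℂ⟦X⟧) * γ) * derivative ℂ ψ := by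
    apply BAS_half
    have h1 := congrArg (derivative ℂ) h0
    have e2 := BAS_d2
    have e3 := BAS_d3
    simp only [map_add, Derivation.leibniz, Derivation.leibniz_pow, e2, e3, derivative_X,
      smul_eq_mul, nsmul_eq_mul] at h1
    push_cast at h1 ⊢
    linear_combination h1 - 3 * derivative ℂ ψ * hg2
  have ha : γ * (1 - ((2 : ℕ) : ℂ⟦X⟧) * X) = X := by
    have hU : (1 + ψ) ^ 2 * (1 - 2 * X) - 1 = 0 := by
      apply BAS_zero (Z := (1 + ψ) ^ 2)
      · have e2 := BAS_d2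
        simp only [map_sub, map_add, Derivation.leibniz, Derivation.leibniz_pow, e2,
          derivative_X, smul_eq_mul, nsmul_eq_mul, Derivation.map_one_eq_zero]
        push_cast
        linear_combination ((1 + ψ) * (1 - 2 * X)) * h0
      · have hc0 : constantCoeff ψ = 0 := X_dvd_iff.1 hpsi.1
        rw [coeff_zero_eq_constantCoeff_apply]
        simp [hc0]
      · have hc0 : constantCoeff ψ = 0 := X_dvd_iff.1 hpsi.1
        obtain ⟨φ, hφ⟩ := hpsi.1
        have hφ0 : constantCoeff φ = 1 := by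
          have := hpsi.2.1
          rw [hφ, BAS_c1] at this
          exact this
        have e5 : (1 + ψ) ^ 2 * (1 - 2 * X) - 1 = X * (2 * φ - 2 + X * (φ ^ 2 - 4 * φ -
          2 * X * φ ^ 2)) := by
          rw [hφ]; ring
        rw [e5, BAS_c1]
        simp [hφ0]
    apply BAS_half
    push_cast
    linear_combination (1 - 2 * X) * hg2 + hU
  have h4 := BAS_rcr hm r 3 2 hγ hc ha k
  have hmQ : (m : ℚ) ≠ 0 := Nat.cast_ne_zero.2 (by omega)
  have h5 := BAS_form hm (fun j => coeff j (bs r k)) k 3 2 (1 - (k : ℚ) / (2 * m))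
    (BAS_c0 r k) h4 (by push_cast; field_simp; ring) j
  exact_mod_cast h5

/-- the case `e = 1` -/
lemma BAS_case1 (m : ℕ) (hm : 1 ≤ m) (r : Rt m (1 : ℂ)) (k : ℤ) (j : ℕ) :
    coeff j (bs r k) = (((-1) ^ j * ch (1 - (k : ℚ) / m) j : ℚ) : ℂ) := by
  have h0 := BAS_psi1
  have hpsi := isPsi_psi (gq (1 : ℂ))
  set ψ := psi (gq (1 : ℂ)) with hψ
  have hγ : X * derivative ℂ ψ = (1 + ψ) * ψ := by
    linear_combination h0
  have hc : X * derivative ℂ (derivative ℂ ψ) = (((2 : ℕ) : ℂ⟦X⟧) * ψ) * derivative ℂ ψ := by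
    have h1 := congrArg (derivative ℂ) h0
    simp only [map_add, Derivation.leibniz, Derivation.leibniz_pow, derivative_X,
      smul_eq_mul, nsmul_eq_mul] at h1
    push_cast at h1 ⊢
    linear_combination h1
  have ha : ψ * (1 - ((1 : ℕ) : ℂ⟦X⟧) * X) = X := by
    have hU : (1 + ψ) * (1 - X) - 1 = 0 := by
      apply BAS_zero (Z := (1 + ψ))
      · simp only [map_sub, map_add, Derivation.leibniz,
          derivative_X, smul_eq_mul, Derivation.map_one_eq_zero]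
        linear_combination (1 - X) * h0
      · have hc0 : constantCoeff ψ = 0 := X_dvd_iff.1 hpsi.1
        rw [coeff_zero_eq_constantCoeff_apply]
        simp [hc0]
      · obtain ⟨φ, hφ⟩ := hpsi.1
        have hφ0 : constantCoeff φ = 1 := by
          have := hpsi.2.1
          rw [hφ, BAS_c1] at this
          exact this
        have e5 : (1 + ψ) * (1 - X) - 1 = X * (φ - 1 - X * φ) := by
          rw [hφ]; ring
        rw [e5, BAS_c1]
        simp [hφ0]
    push_cast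
    linear_combination hU
  have h4 := BAS_rcr hm r 2 1 hγ hc ha k
  have hmQ : (m : ℚ) ≠ 0 := Nat.cast_ne_zero.2 (by omega)
  have h5 := BAS_form hm (fun j => coeff j (bs r k)) k 2 1 (1 - (k : ℚ) / m)
    (BAS_c0 r k) h4 (by push_cast; field_simp; ring) j
  exact_mod_cast h5

theorem BAS : BAS_stmt :=
  fun m hm => ⟨BAS_case0 m hm, BAS_case1 m hm⟩

end Pool.Agent.LK

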